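import Pool.Agent.W2helper20.BC.Stm2

/-!
# Project EN, piece VAR: the first variation along a maximal geodesic
-/

set_option autoImplicit false

namespace Pool.Agent.W2helper52.EN

open Set Metric Filter Topology MeasureTheory
open scoped ContDiff InnerProductSpace
open Pool.Agent.Q176.BR Pool.Agent.W2helper20.BC

/-- Differentiation of a parameter integral. -/
theorem param {V : Type*} [NormedAddCommGroup V] [NormedSpace ℝ V] {P : V → ℝ}
    (hP : ContDiff ℝ 1 P) {a b : ℝ} (hab : a ≤ b) {z y : ℝ → V} {om : ℝ → ℝ}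
    (hz : ContinuousOn z (Icc a b)) (hy : ContinuousOn y (Icc a b))
    (hom : ContinuousOn om (Icc a b)) :
    HasDerivAt (fun ε : ℝ => ∫ t in a..b, P (z t + ε • y t) * om t)
      (∫ t in a..b, fderiv ℝ P (z t) (y t) * om t) 0 := by
  have hP' : Continuous (fderiv ℝ P) := hP.continuous_fderiv (by norm_num)
  have hsnd : MapsTo (fun p : ℝ × ℝ => p.2) (Icc (-1 : ℝ) 1 ×ˢ Icc a b) (Icc a b) :=
    fun p hp => hp.2
  have hz2 : ContinuousOn (fun p : ℝ × ℝ => z p.2) (Icc (-1 : ℝ) 1 ×ˢ Icc a b) :=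
    hz.comp continuousOn_snd hsnd
  have hy2 : ContinuousOn (fun p : ℝ × ℝ => y p.2) (Icc (-1 : ℝ) 1 ×ˢ Icc a b) :=
    hy.comp continuousOn_snd hsnd
  have hom2 : ContinuousOn (fun p : ℝ × ℝ => om p.2) (Icc (-1 : ℝ) 1 ×ˢ Icc a b) :=
    hom.comp continuousOn_snd hsnd
  have hc : ContinuousOn (fun p : ℝ × ℝ => fderiv ℝ P (z p.2 + p.1 • y p.2) (y p.2) * om p.2)
      (Icc (-1 : ℝ) 1 ×ˢ Icc a b) := by
    have h1 : ContinuousOn (fun p : ℝ × ℝ => z p.2 + p.1 • y p.2) (Icc (-1 : ℝ) 1 ×ˢ Icc a b) :=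
      hz2.add (continuousOn_fst.smul hy2)
    exact ((hP'.comp_continuousOn h1).clm_apply hy2).mul hom2
  obtain ⟨C, hC⟩ := (isCompact_Icc.prod isCompact_Icc).exists_bound_of_continuousOn hc
  have hF : ∀ ε : ℝ, ContinuousOn (fun t => P (z t + ε • y t) * om t) (Icc a b) := fun ε =>
    (hP.continuous.comp_continuousOn (hz.add (hy.const_smul ε))).mul hom
  have hF' : ContinuousOn (fun t => fderiv ℝ P (z t + (0 : ℝ) • y t) (y t) * om t) (Icc a b) :=
    ((hP'.comp_continuousOn (hz.add (hy.const_smul (0 : ℝ)))).clm_apply hy).mul hom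
  have hI : uIoc a b ⊆ Icc a b := by
    rw [uIoc_of_le hab]
    exact Ioc_subset_Icc_self
  have key := (intervalIntegral.hasDerivAt_integral_of_dominated_loc_of_deriv_le
    (μ := volume) (a := a) (b := b) (bound := fun _ => C)
    (F := fun (ε : ℝ) t => P (z t + ε • y t) * om t)
    (F' := fun (ε : ℝ) t => fderiv ℝ P (z t + ε • y t) (y t) * om t) (x₀ := (0 : ℝ))
    (s := Icc (-1 : ℝ) 1) (Icc_mem_nhds (by norm_num) (by norm_num))
    (Eventually.of_forall (fun ε => ((hF ε).mono hI).aestronglyMeasurable measurableSet_uIoc))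
    ((hF 0).intervalIntegrable_of_Icc hab)
    ((hF'.mono hI).aestronglyMeasurable measurableSet_uIoc)
    (Eventually.of_forall (fun t ht ε hε => hC (ε, t) ⟨hε, hI ht⟩))
    intervalIntegrable_const
    (Eventually.of_forall (fun t ht ε hε => ?_))).2
  · simpa using key
  · have h1 : HasDerivAt (fun ε : ℝ => z t + ε • y t) (y t) ε := by
      simpa using ((hasDerivAt_id ε).smul_const (y t)).const_add (z t)
    have h2 : HasFDerivAt P (fderiv ℝ P (z t + ε • y t)) (z t + ε • y t) :=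
      (hP.differentiable (by norm_num) _).hasFDerivAt
    exact (h2.comp_hasDerivAt ε h1).mul_const (om t)

theorem sqrt_le_half {F r : ℝ} (hF : 0 ≤ F) (hr : 0 < r) : √F ≤ (F * r⁻¹ + r) / 2 := by
  have h1 := Real.sq_sqrt hF
  have h2 : F * r⁻¹ + r - 2 * √F = (√F - r) ^ 2 * r⁻¹ := by
    field_simp
    nlinarith
  have h3 : 0 ≤ (√F - r) ^ 2 * r⁻¹ := by positivity
  linarith

/-- The derivative of `Θ g(v, v)`. -/
theorem fderiv_P {n : ℕ} {g : Fld n} {Θ : E n → ℝ} (hg : IsMetric g) (hΘ : ContDiff ℝ ∞ Θ)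
    (x v x' v' : E n) :
    fderiv ℝ (fun z : E n × E n => Θ z.1 * g z.1 z.2 z.2) (x, v) (x', v') =
      fderiv ℝ Θ x x' * g x v v + Θ x * (fderiv ℝ g x x' v v + 2 * g x v v') := by
  have hP : ContDiff ℝ 1 (fun z : E n × E n => Θ z.1 * g z.1 z.2 z.2) := by
    have h1 : ContDiff ℝ 1 Θ := hΘ.of_le (by exact_mod_cast le_top)
    have h2 : ContDiff ℝ 1 g := hg.smooth.of_le (by exact_mod_cast le_top)
    exact (h1.comp contDiff_fst).mul
      (((h2.comp contDiff_fst).clm_apply contDiff_snd).clm_apply contDiff_snd)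
  have hx : HasDerivAt (fun ε : ℝ => x + ε • x') x' 0 := by
    simpa using ((hasDerivAt_id (0 : ℝ)).smul_const x').const_add x
  have hv : HasDerivAt (fun ε : ℝ => v + ε • v') v' 0 := by
    simpa using ((hasDerivAt_id (0 : ℝ)).smul_const v').const_add v
  have h1 : HasDerivAt (fun ε : ℝ => Θ (x + ε • x') * g (x + ε • x') (v + ε • v') (v + ε • v'))
      (fderiv ℝ (fun z : E n × E n => Θ z.1 * g z.1 z.2 z.2) (x, v) (x', v')) 0 := by
    have h2 := (hP.differentiable (by norm_num) (x + (0 : ℝ) • x', v + (0 : ℝ) • v')).hasFDerivAt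
    have h3 := h2.comp_hasDerivAt (0 : ℝ) (hx.prodMk hv)
    simpa [Function.comp_def] using h3
  have h4 : HasDerivAt (fun ε : ℝ => Θ (x + ε • x') * g (x + ε • x') (v + ε • v') (v + ε • v'))
      (fderiv ℝ Θ x x' * g x v v + Θ x * (fderiv ℝ g x x' v v + 2 * g x v v')) 0 := by
    have h5 := (hasDerivWithinAt_form hg (hx.hasDerivWithinAt (s := univ)) (hv.hasDerivWithinAt)
      (hv.hasDerivWithinAt)).hasDerivAt univ_mem
    have h6 : HasFDerivAt Θ (fderiv ℝ Θ (x + (0 : ℝ) • x')) (x + (0 : ℝ) • x') :=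
      ((hΘ.differentiable (by simp)) _).hasFDerivAt
    have h7 := (h6.comp_hasDerivAt (0 : ℝ) hx).mul h5
    refine h7.congr_deriv ?_
    simp only [zero_smul, add_zero, Function.comp_def]
    rw [hg.symm x v' v]
    ring
  exact h1.unique h4

theorem p_VAR : P_VAR := by
  intro n g h Θ γ u hg hh hΘ hhΘ hlen hch hκ s hs hΘs w
  by_contra hne
  have hgm := hg.toIsMetric
  have m0 : (0 : ℝ) ∈ Icc (0 : ℝ) 1 := ⟨le_rfl, zero_le_one⟩
  have m1 : (1 : ℝ) ∈ Icc (0 : ℝ) 1 := ⟨zero_le_one, le_rfl⟩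
  -- the speed
  obtain ⟨K, hK⟩ : ∃ K, K = g (γ 0) (u 0) (u 0) := ⟨_, rfl⟩
  have hKpos : 0 < K := hK ▸ hgm.pos _ _ hch.ne
  have hspeed : ∀ t ∈ Icc (0 : ℝ) 1, g (γ t) (u t) (u t) = K := fun t ht => by
    rw [hch.geod.speed hgm t ht, hK]
  obtain ⟨κ, hκdef⟩ : ∃ κ, κ = √K := ⟨_, rfl⟩
  have hκpos : 0 < κ := hκdef ▸ Real.sqrt_pos.2 hKpos
  have hκK : κ ^ 2 = K := by rw [hκdef]; exact Real.sq_sqrt hKpos.le
  have e1 : κ = rdist g (γ 0) (γ 1) := by
    rw [hg.rdist_eq (hch.geod.mem 0 m0) (hch.geod.mem 1 m1), hch.geod.lg_eq hg m1, one_smul,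
      hκdef, hK]
  rw [← hK, ← hκdef] at hκ
  have hs01 : s ∈ Icc (0 : ℝ) 1 := ⟨hs.1.le, hs.2.le⟩
  rw [hspeed s hs01] at hne
  -- continuity
  have hcγ : ContinuousOn γ (Icc 0 1) := hch.geod.cont
  have hcu : ContinuousOn u (Icc 0 1) := hch.geod.contU
  have hΘ' : Continuous (fderiv ℝ Θ) := hΘ.continuous_fderiv (by simp)
  have hgc : Continuous g := hgm.smooth.continuous
  have hhc : Continuous h := hh.smooth.continuous
  obtain ⟨q, hq⟩ : ∃ q : ℝ → ℝ, q = fun t =>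
    K * fderiv ℝ Θ (γ t) w - g (γ t) (u t) w * fderiv ℝ Θ (γ t) (u t) := ⟨_, rfl⟩
  have hq0 : q s ≠ 0 := by
    rw [hq]
    exact sub_ne_zero.2 hne
  have hqc : ContinuousOn q (Icc 0 1) := by
    rw [hq]
    have h1 : ContinuousOn (fun t => fderiv ℝ Θ (γ t)) (Icc 0 1) := hΘ'.comp_continuousOn hcγ
    have h2 : ContinuousOn (fun t => g (γ t)) (Icc 0 1) := hgc.comp_continuousOn hcγ
    exact (continuousOn_const.mul (h1.clm_apply continuousOn_const)).sub
      (((h2.clm_apply hcu).clm_apply continuousOn_const).mul (h1.clm_apply hcu))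
  have hΘc : ContinuousOn (fun t => Θ (γ t)) (Icc 0 1) := hΘ.continuous.comp_continuousOn hcγ
  -- the interval
  have hnb : Icc (0 : ℝ) 1 ∈ 𝓝 s := Icc_mem_nhds hs.1 hs.2
  have ev1 : ∀ᶠ t in 𝓝 s, 0 < Θ (γ t) :=
    (hΘc.continuousAt hnb).eventually (Ioi_mem_nhds hΘs)
  have ev2 : ∀ᶠ t in 𝓝 s, 0 < q t * q s :=
    ((hqc.continuousAt hnb).mul (continuousAt_const (y := q s))).eventually
      (Ioi_mem_nhds (mul_self_pos.2 hq0))
  have ev3 : ∀ᶠ t in 𝓝 s, t ∈ Ioo (0 : ℝ) 1 := Ioo_mem_nhds hs.1 hs.2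
  obtain ⟨δ, hδ, hball⟩ := Metric.nhds_basis_closedBall.mem_iff.1 (ev1.and (ev2.and ev3))
  rw [Real.closedBall_eq_Icc] at hball
  obtain ⟨a, ha⟩ : ∃ a, a = s - δ := ⟨_, rfl⟩
  obtain ⟨b, hb⟩ : ∃ b, b = s + δ := ⟨_, rfl⟩
  rw [← ha, ← hb] at hball
  have hab : a < b := by linarith
  have hJΘ : ∀ t ∈ Icc a b, 0 < Θ (γ t) := fun t ht => (hball ht).1
  have hJq : ∀ t ∈ Icc a b, 0 < q t * q s := fun t ht => (hball ht).2.1
  have hJ : ∀ t ∈ Icc a b, t ∈ Ioo (0 : ℝ) 1 := fun t ht => (hball ht).2.2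
  have hJ1 : Icc a b ⊆ Icc (0 : ℝ) 1 := fun t ht => ⟨(hJ t ht).1.le, (hJ t ht).2.le⟩
  have ha0 : 0 < a := (hJ a ⟨le_rfl, hab.le⟩).1
  have hb1 : b < 1 := (hJ b ⟨hab.le, le_rfl⟩).2
  -- the bump function
  let f : ContDiffBump s := ⟨δ / 2, δ, by positivity, by linarith⟩
  obtain ⟨χ, hχ⟩ : ∃ χ : ℝ → ℝ, χ = fun t => f t := ⟨_, rfl⟩
  have hχC : ContDiff ℝ 1 χ := by
    rw [hχ]
    exact f.contDiff (n := 1)
  have hχnn : ∀ t, 0 ≤ χ t := fun t => by
    rw [hχ]
    exact f.nonneg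
  have hχ0 : ∀ t, t ∉ Ioo a b → χ t = 0 := by
    intro t ht
    rw [hχ]
    refine f.zero_of_le_dist ?_
    by_contra h1
    rw [not_le, Real.dist_eq, abs_lt] at h1
    exact ht ⟨by rw [ha]; linarith [h1.1], by rw [hb]; linarith [h1.2]⟩
  have hχpos : ∀ t ∈ Ioo a b, 0 < χ t := by
    intro t ht
    rw [hχ]
    refine f.pos_of_mem_ball ?_
    rw [mem_ball, Real.dist_eq, abs_lt]
    exact ⟨by linarith [ht.1], by linarith [ht.2]⟩
  have hχ0' : ∀ t, t ∉ Ioo a b → deriv χ t = 0 := by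
    intro t ht
    refine IsLocalMin.deriv_eq_zero (Eventually.of_forall (fun r => ?_))
    rw [hχ0 t ht]
    exact hχnn r
  have hχd : ∀ t, HasDerivAt χ (deriv χ t) t := fun t =>
    (hχC.differentiable (by norm_num) t).hasDerivAt
  have hχ'c : Continuous (deriv χ) := hχC.continuous_deriv (by norm_num)
  -- the variation
  obtain ⟨c, hc⟩ : ∃ c : ℝ → ℝ → E n, c = fun ε t => γ t + (ε * χ t) • w := ⟨_, rfl⟩
  obtain ⟨v, hv⟩ : ∃ v : ℝ → ℝ → E n, v = fun ε t => u t + (ε * deriv χ t) • w := ⟨_, rfl⟩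
  have hcder : ∀ ε, ∀ t ∈ Icc (0 : ℝ) 1, HasDerivWithinAt (c ε) (v ε t) (Icc 0 1) t := by
    intro ε t ht
    rw [hc, hv]
    exact (hch.geod.vel t ht).add
      ((((hχd t).const_mul ε).smul_const w).hasDerivWithinAt)
  have hcC : ∀ ε, ContDiffOn ℝ 1 (c ε) (Icc 0 1) := by
    intro ε
    rw [hc]
    exact hch.geod.contDiffOn.add
      (((contDiff_const.mul hχC).smul contDiff_const).contDiffOn)
  have hc0 : ∀ ε t, t ∉ Ioo a b → c ε t = γ t := by
    intro ε t ht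
    rw [hc]
    simp [hχ0 t ht]
  have hv0 : ∀ ε t, t ∉ Ioo a b → v ε t = u t := by
    intro ε t ht
    rw [hv]
    simp [hχ0' t ht]
  have hcM : ∀ᶠ ε in 𝓝 (0 : ℝ), ∀ t ∈ Icc (0 : ℝ) 1, c ε t ∈ M n := by
    obtain ⟨t₀, ht₀, hmax⟩ := (isCompact_Icc (a := a) (b := b)).exists_isMaxOn
      (nonempty_Icc.2 hab.le) ((hcγ.mono hJ1).norm)
    have h1 : ‖γ t₀‖ < 1 := hch.geod.inner_mem hg hch.ne (hJ t₀ ht₀)
    obtain ⟨B, -, hB⟩ : ∃ B : ℝ, 0 ≤ B ∧ ∀ t, |χ t| ≤ B := by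
      refine ⟨1, zero_le_one, fun t => ?_⟩
      rw [abs_of_nonneg (hχnn t), hχ]
      exact f.le_one
    have h2 : ∀ᶠ ε in 𝓝 (0 : ℝ), |ε| * B * ‖w‖ < 1 - ‖γ t₀‖ := by
      have h3 : ContinuousAt (fun ε : ℝ => |ε| * B * ‖w‖) 0 := by fun_prop
      refine h3.eventually (Iio_mem_nhds ?_)
      simp only [abs_zero, zero_mul]
      linarith
    filter_upwards [h2] with ε hε t ht
    by_cases h4 : t ∈ Ioo a b
    · rw [mem_closedBall_zero_iff, hc]
      have h5 : ‖γ t‖ ≤ ‖γ t₀‖ := hmax ⟨h4.1.le, h4.2.le⟩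
      have h6 : ‖(ε * χ t) • w‖ ≤ |ε| * B * ‖w‖ := by
        rw [norm_smul, Real.norm_eq_abs, abs_mul]
        exact mul_le_mul_of_nonneg_right (mul_le_mul_of_nonneg_left (hB t) (abs_nonneg _))
          (norm_nonneg _)
      exact (norm_add_le _ _).trans (by linarith)
    · rw [hc0 ε t h4]
      exact hch.geod.mem t ht
  -- the integrands
  obtain ⟨G, hG⟩ : ∃ G : ℝ → ℝ → ℝ, G = fun ε t => √(h (c ε t) (v ε t) (v ε t)) := ⟨_, rfl⟩
  have hcc : ∀ ε, ContinuousOn (c ε) (Icc 0 1) := fun ε => (hcC ε).continuousOn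
  have hvc : ∀ ε, ContinuousOn (v ε) (Icc 0 1) := by
    intro ε
    rw [hv]
    exact hcu.add (((continuous_const.mul hχ'c).smul continuous_const).continuousOn)
  have hGc : ∀ ε, ContinuousOn (G ε) (Icc 0 1) := by
    intro ε
    rw [hG]
    have h2 : ContinuousOn (fun t => h (c ε t)) (Icc 0 1) := hhc.comp_continuousOn (hcc ε)
    exact ContinuousOn.sqrt ((h2.clm_apply (hvc ε)).clm_apply (hvc ε))
  have hlenG : ∀ ε, len h (c ε) = ∫ t in (0 : ℝ)..1, G ε t := by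
    intro ε
    unfold len
    refine intervalIntegral.integral_congr (fun t ht => ?_)
    rw [uIcc_of_le zero_le_one] at ht
    rw [hG]
    simp only
    rw [(hcder ε t ht).derivWithin (uniqueDiffOn_Icc (zero_lt_one (α := ℝ)) t ht)]
  have hG0 : ∀ t, G 0 t = √(h (γ t) (u t) (u t)) := by
    intro t
    rw [hG, hc, hv]
    simp
  have hint0 : ∫ t in (0 : ℝ)..1, G 0 t = κ := by
    rw [← hκ]
    exact intervalIntegral.integral_congr (fun t _ => hG0 t)
  have hsub : ∀ {x y : ℝ}, x ≤ y → 0 ≤ x → y ≤ 1 → ∀ ε, IntervalIntegrable (G ε) volume x y := by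
    intro x y hxy hx hy ε
    exact ((hGc ε).mono (Icc_subset_Icc hx hy)).intervalIntegrable_of_Icc hxy
  have hJint : ∀ᶠ ε in 𝓝 (0 : ℝ), ∫ t in a..b, G 0 t ≤ ∫ t in a..b, G ε t := by
    filter_upwards [hcM] with ε hε
    have h1 : κ ≤ ∫ t in (0 : ℝ)..1, G ε t := by
      have e2 : c ε 0 = γ 0 := hc0 ε 0 (fun h => absurd h.1 (not_lt.2 ha0.le))
      have e3 : c ε 1 = γ 1 := hc0 ε 1 (fun h => absurd h.2 (not_lt.2 hb1.le))
      have h2 := hlen (c ε) (hcC ε) hε (by rw [e2]; exact mem_sphere_zero_iff_norm.2 hch.zero)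
        (by rw [e3]; exact mem_sphere_zero_iff_norm.2 hch.one)
      rwa [e2, e3, ← e1, hlenG] at h2
    have split : ∀ η, ∫ t in (0 : ℝ)..1, G η t =
        (∫ t in (0 : ℝ)..a, G η t) + (∫ t in a..b, G η t) + ∫ t in b..1, G η t := by
      intro η
      rw [intervalIntegral.integral_add_adjacent_intervals
        (hsub ha0.le le_rfl (hab.le.trans hb1.le) η) (hsub hab.le ha0.le hb1.le η),
        intervalIntegral.integral_add_adjacent_intervals
        (hsub (ha0.le.trans hab.le) le_rfl hb1.le η) (hsub hb1.le (ha0.le.trans hab.le) le_rfl η)]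
    have same : ∀ t, t ∉ Ioo a b → G ε t = G 0 t := by
      intro t ht
      rw [hG]
      simp only
      rw [hc0 ε t ht, hc0 0 t ht, hv0 ε t ht, hv0 0 t ht]
    have h3 : ∫ t in (0 : ℝ)..a, G ε t = ∫ t in (0 : ℝ)..a, G 0 t := by
      refine intervalIntegral.integral_congr (fun t ht => same t (fun h => ?_))
      rw [uIcc_of_le ha0.le] at ht
      exact absurd h.1 (not_lt.2 ht.2)
    have h4 : ∫ t in b..1, G ε t = ∫ t in b..1, G 0 t := by
      refine intervalIntegral.integral_congr (fun t ht => same t (fun h => ?_))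
      rw [uIcc_of_le hb1.le] at ht
      exact absurd h.2 (not_lt.2 ht.1)
    rw [← hint0, split 0, split ε, h3, h4] at h1
    linarith
  -- the weighted energy
  obtain ⟨r, hr⟩ : ∃ r : ℝ → ℝ, r = fun t => √(Θ (γ t)) * κ := ⟨_, rfl⟩
  have hrpos : ∀ t ∈ Icc a b, 0 < r t := by
    intro t ht
    rw [hr]
    exact mul_pos (Real.sqrt_pos.2 (hJΘ t ht)) hκpos
  have hrc : ContinuousOn r (Icc a b) := by
    rw [hr]
    exact ((hΘc.mono hJ1).sqrt).mul continuousOn_const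
  have hric : ContinuousOn (fun t => (r t)⁻¹) (Icc a b) := hrc.inv₀ (fun t ht => (hrpos t ht).ne')
  have hG0r : ∀ t ∈ Icc a b, G 0 t = r t := by
    intro t ht
    rw [hG0, hhΘ _ (hch.geod.mem t (hJ1 ht)), hr]
    simp only [smul_apply, smul_eq_mul]
    rw [hspeed t (hJ1 ht), Real.sqrt_mul (hJΘ t ht).le, hκdef]
  obtain ⟨P, hP⟩ : ∃ P : E n × E n → ℝ, P = fun z => Θ z.1 * g z.1 z.2 z.2 := ⟨_, rfl⟩
  have hPC : ContDiff ℝ 1 P := by
    have h1 : ContDiff ℝ 1 Θ := hΘ.of_le (by exact_mod_cast le_top)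
    have h2 : ContDiff ℝ 1 g := hgm.smooth.of_le (by exact_mod_cast le_top)
    rw [hP]
    exact (h1.comp contDiff_fst).mul
      (((h2.comp contDiff_fst).clm_apply contDiff_snd).clm_apply contDiff_snd)
  obtain ⟨z, hz⟩ : ∃ z : ℝ → E n × E n, z = fun t => (γ t, u t) := ⟨_, rfl⟩
  obtain ⟨y, hy⟩ : ∃ y : ℝ → E n × E n, y = fun t => (χ t • w, deriv χ t • w) := ⟨_, rfl⟩
  have hzc : ContinuousOn z (Icc a b) := by
    rw [hz]
    exact (hcγ.mono hJ1).prodMk (hcu.mono hJ1)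
  have hyc : ContinuousOn y (Icc a b) := by
    rw [hy]
    exact ((hχC.continuous.smul continuous_const).prodMk
      (hχ'c.smul continuous_const)).continuousOn
  have hzy : ∀ ε t, z t + ε • y t = (c ε t, v ε t) := by
    intro ε t
    rw [hz, hy, hc, hv]
    simp only [Prod.smul_mk, Prod.mk_add_mk, smul_smul]
  have hder := param hPC hab.le hzc hyc hric
  have hPε : ∀ ε t, c ε t ∈ M n → P (z t + ε • y t) = h (c ε t) (v ε t) (v ε t) := by
    intro ε t ht
    rw [hzy, hP, hhΘ _ ht]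
    simp only [smul_apply, smul_eq_mul]
  have hP0 : ∀ t ∈ Icc a b, P (z t + (0 : ℝ) • y t) * (r t)⁻¹ = r t := by
    intro t ht
    have h1 := hrpos t ht
    have h2 : c 0 t = γ t := by rw [hc]; simp
    rw [hPε 0 t (by rw [h2]; exact hch.geod.mem t (hJ1 ht))]
    have h3 : h (c 0 t) (v 0 t) (v 0 t) = r t ^ 2 := by
      rw [← hG0r t ht, hG]
      exact (Real.sq_sqrt (hh.nonneg _ _)).symm
    rw [h3]
    field_simp
  have hΦmin : IsLocalMin (fun ε : ℝ => ∫ t in a..b, P (z t + ε • y t) * (r t)⁻¹) 0 := by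
    filter_upwards [hJint, hcM] with ε h1 h2
    have hi1 : IntervalIntegrable (fun t => P (z t + ε • y t) * (r t)⁻¹) volume a b :=
      ((hPC.continuous.comp_continuousOn (hzc.add (hyc.const_smul ε))).mul
        hric).intervalIntegrable_of_Icc hab.le
    have hi2 : IntervalIntegrable r volume a b := hrc.intervalIntegrable_of_Icc hab.le
    have h3 : ∫ t in a..b, P (z t + (0 : ℝ) • y t) * (r t)⁻¹ = ∫ t in a..b, r t := by
      refine intervalIntegral.integral_congr (fun t ht => ?_)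
      rw [uIcc_of_le hab.le] at ht
      exact hP0 t ht
    have h4 : ∫ t in a..b, G 0 t = ∫ t in a..b, r t := by
      refine intervalIntegral.integral_congr (fun t ht => ?_)
      rw [uIcc_of_le hab.le] at ht
      exact hG0r t ht
    have h5 : ∫ t in a..b, G ε t ≤
        ∫ t in a..b, (P (z t + ε • y t) * (r t)⁻¹ + r t) / 2 := by
      refine intervalIntegral.integral_mono_on hab.le (hsub hab.le ha0.le hb1.le ε)
        ((hi1.add hi2).div_const 2) (fun t ht => ?_)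
      rw [hPε ε t (h2 t (hJ1 ht)), hG]
      exact sqrt_le_half (hh.nonneg _ _) (hrpos t ht)
    rw [intervalIntegral.integral_div, intervalIntegral.integral_add hi1 hi2] at h5
    rw [h3]
    linarith
  have hzero := hΦmin.hasDerivAt_eq_zero hder
  -- integration by parts
  obtain ⟨D, hD⟩ : ∃ D : ℝ → ℝ, D = fun t => fderiv ℝ P (z t) (y t) * (r t)⁻¹ := ⟨_, rfl⟩
  have hDc : ContinuousOn D (Icc a b) := by
    rw [hD]
    exact (((hPC.continuous_fderiv (by norm_num)).comp_continuousOn hzc).clm_apply hyc).mul hric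
  obtain ⟨Q, hQ⟩ : ∃ Q : ℝ → ℝ, Q = fun t => χ t * q t * (r t)⁻¹ := ⟨_, rfl⟩
  have hQc : ContinuousOn Q (Icc a b) := by
    rw [hQ]
    exact (hχC.continuous.continuousOn.mul (hqc.mono hJ1)).mul hric
  have hΨ : ∀ t ∈ uIcc a b, HasDerivAt
      (fun t => 2 * κ⁻¹ * (√(Θ (γ t)) * (χ t * g (γ t) (u t) w))) (D t - Q t) t := by
    intro t ht
    rw [uIcc_of_le hab.le] at ht
    have ht1 := hJ1 ht
    have hnt : Icc (0 : ℝ) 1 ∈ 𝓝 t := Icc_mem_nhds (hJ t ht).1 (hJ t ht).2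
    obtain ⟨cc, hcc1, hcc2⟩ := hch.geod.acc t ht1
    have d1 : HasDerivAt (fun t => g (γ t) (u t) w) (1 / 2 * fderiv ℝ g (γ t) w (u t) (u t)) t := by
      have h1 := (hasDerivWithinAt_form hgm (hch.geod.vel t ht1) hcc1
        (hasDerivWithinAt_const (x := t) (s := Icc (0 : ℝ) 1) (c := w))).hasDerivAt hnt
      refine h1.congr_deriv ?_
      rw [hcc2 w]
      simp only [map_zero]
      ring
    have d2 : HasDerivAt (fun t => Θ (γ t)) (fderiv ℝ Θ (γ t) (u t)) t := by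
      have h1 : HasFDerivAt Θ (fderiv ℝ Θ (γ t)) (γ t) :=
        ((hΘ.differentiable (by simp)) _).hasFDerivAt
      exact h1.comp_hasDerivAt t ((hch.geod.vel t ht1).hasDerivAt hnt)
    have hpos := hJΘ t ht
    have d3 := d2.sqrt hpos.ne'
    have d4 := (d3.mul ((hχd t).mul d1)).const_mul (2 * κ⁻¹)
    refine d4.congr_deriv ?_
    have hS : 0 < √(Θ (γ t)) := Real.sqrt_pos.2 hpos
    have hS2 : √(Θ (γ t)) ^ 2 = Θ (γ t) := Real.sq_sqrt hpos.le
    have hfd : fderiv ℝ P (z t) (y t) = χ t * fderiv ℝ Θ (γ t) w * K + Θ (γ t) *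
        (χ t * fderiv ℝ g (γ t) w (u t) (u t) + 2 * (deriv χ t * g (γ t) (u t) w)) := by
      rw [hP, hz, hy]
      simp only
      rw [fderiv_P hgm hΘ, hspeed t ht1]
      simp only [map_smul, smul_apply, smul_eq_mul]
    rw [hD, hQ, hr, hq]
    simp only [Pi.mul_apply]
    rw [hfd]
    generalize fderiv ℝ g (γ t) w (u t) (u t) = G1
    generalize fderiv ℝ Θ (γ t) w = dW
    generalize fderiv ℝ Θ (γ t) (u t) = dU
    generalize g (γ t) (u t) w = p
    rw [← hS2]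
    rw [Real.sqrt_sq hS.le]
    generalize √(Θ (γ t)) = S at hS
    generalize deriv χ t = X'
    generalize χ t = X
    field_simp
    ring
  have hDi : IntervalIntegrable D volume a b := hDc.intervalIntegrable_of_Icc hab.le
  have hQi : IntervalIntegrable Q volume a b := hQc.intervalIntegrable_of_Icc hab.le
  have hint := intervalIntegral.integral_eq_sub_of_hasDerivAt hΨ (hDi.sub hQi)
  rw [hχ0 a (fun h => lt_irrefl _ h.1), hχ0 b (fun h => lt_irrefl _ h.2),
    intervalIntegral.integral_sub hDi hQi] at hint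
  simp only [zero_mul, mul_zero, sub_zero] at hint
  have hD0 : ∫ t in a..b, D t = 0 := by rw [hD]; exact hzero
  rw [hD0, zero_sub, neg_eq_zero] at hint
  have hpos : 0 < ∫ t in a..b, Q t * q s := by
    refine intervalIntegral.intervalIntegral_pos_of_pos_on (hQi.mul_const (q s))
      (fun t ht => ?_) hab
    have ht' : t ∈ Icc a b := ⟨ht.1.le, ht.2.le⟩
    have h1 : Q t * q s = χ t * (q t * q s) * (r t)⁻¹ := by
      rw [hQ]
      ring
    rw [h1]
    exact mul_pos (mul_pos (hχpos t ht) (hJq t ht')) (inv_pos.2 (hrpos t ht'))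
  rw [intervalIntegral.integral_mul_const, hint, zero_mul] at hpos
  exact lt_irrefl _ hpos

end Pool.Agent.W2helper52.EN
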